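import Pool.Agent.H59.HR.Stm

set_option linter.all false

namespace HR
namespace K57

theorem one_le (S : Finset (ℕ × ℕ)) (h : IsLowerSet (S : Set (ℕ × ℕ)))
    (h1 : (0, 1) ∉ S) (h2 : (1, 0) ∉ S) : S.card ≤ 1 := by
  rw [Finset.card_le_one]
  have key : ∀ a ∈ S, a = (0, 0) := by
    intro a ha
    have e1 : a.1 = 0 := by
      by_contra hc
      exact h2 (h (show ((1, 0) : ℕ × ℕ) ≤ a from ⟨by show 1 ≤ a.1; omega, by show 0 ≤ a.2; omega⟩) ha)
    have e2 : a.2 = 0 := by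
      by_contra hc
      exact h1 (h (show ((0, 1) : ℕ × ℕ) ≤ a from ⟨by show 0 ≤ a.1; omega, by show 1 ≤ a.2; omega⟩) ha)
    exact Prod.ext e1 e2
  intro a ha b hb
  rw [key a ha, key b hb]

theorem union_card (n : ℕ) (S0 S1 : Finset (ℕ × ℕ)) (h0 : S0.card = n) (h1 : S1.card = n)
    (hne : S0 ≠ S1) (R : Finset (ℕ × ℕ)) (hR0 : R ⊆ S0) (hR1 : R ⊆ S1) (hR : n - 1 ≤ R.card) :
    (S0 ∪ S1).card = n + 1 := by
  have e := Finset.card_union_add_card_inter S0 S1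
  have h2 : R.card ≤ (S0 ∩ S1).card := Finset.card_le_card (Finset.subset_inter hR0 hR1)
  have h3 : (S0 ∩ S1).card < n := by
    by_contra hc
    have hc' : n ≤ (S0 ∩ S1).card := by omega
    have e0 : S0 ∩ S1 = S0 := Finset.eq_of_subset_of_card_le Finset.inter_subset_left (by omega)
    have e1 : S0 ∩ S1 = S1 := Finset.eq_of_subset_of_card_le Finset.inter_subset_right (by omega)
    exact hne (e0.symm.trans e1)
  omega

/-- the case `(0,1) ∉ S0` -/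
theorem row_case (n : ℕ) (hn : 2 ≤ n) (S0 S1 : Finset (ℕ × ℕ))
    (l0 : IsLowerSet (S0 : Set (ℕ × ℕ)))
    (l1 : IsLowerSet (S1 : Set (ℕ × ℕ))) (h0 : S0.card = n) (h1 : S1.card = n) (hne : S0 ≠ S1)
    (h01 : (0, 1) ∉ S0) :
    (S0 ∪ S1).card = n + 1 ∨ (1, 0) ∉ S1 ∨
    (4 ≤ n ∧ (1, 0) ∈ S0 ∧ (1, 0) ∈ S1 ∧ (0, n - 3) ∉ S0) := by
  have m0 : (1, 0) ∈ S0 := by
    by_contra hc
    have := one_le S0 l0 h01 hc
    omega
  by_cases m1 : (1, 0) ∈ S1
  swap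
  · exact Or.inr (Or.inl m1)
  have hS00 : (0, 0) ∈ S0 := l0 (show ((0, 0) : ℕ × ℕ) ≤ (1, 0) from ⟨by simp, by simp⟩) m0
  have hS10 : (0, 0) ∈ S1 := l1 (show ((0, 0) : ℕ × ℕ) ≤ (1, 0) from ⟨by simp, by simp⟩) m1
  by_cases h4 : 4 ≤ n
  · right; right
    refine ⟨h4, m0, m1, fun hc => h01 (l0 (show ((0, 1) : ℕ × ℕ) ≤ (0, n - 3) from
      ⟨le_refl _, by show 1 ≤ n - 3; omega⟩) hc)⟩
  · left
    refine union_card n S0 S1 h0 h1 hne {(0, 0), (1, 0)} ?_ ?_ ?_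
    · intro x hx; simp at hx; rcases hx with rfl | rfl <;> assumption
    · intro x hx; simp at hx; rcases hx with rfl | rfl <;> assumption
    · rw [Finset.card_pair (by simp)]; omega

/-- the case `(1,0) ∉ S0` -/
theorem col_case (n : ℕ) (hn : 2 ≤ n) (S0 S1 : Finset (ℕ × ℕ))
    (l0 : IsLowerSet (S0 : Set (ℕ × ℕ)))
    (l1 : IsLowerSet (S1 : Set (ℕ × ℕ))) (h0 : S0.card = n) (h1 : S1.card = n) (hne : S0 ≠ S1)
    (h01 : (1, 0) ∉ S0) :
    (S0 ∪ S1).card = n + 1 ∨ (0, 1) ∉ S1 ∨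
    (4 ≤ n ∧ (0, 1) ∈ S0 ∧ (0, 1) ∈ S1 ∧ (n - 3, 0) ∉ S0) := by
  have m0 : (0, 1) ∈ S0 := by
    by_contra hc
    have := one_le S0 l0 hc h01
    omega
  by_cases m1 : (0, 1) ∈ S1
  swap
  · exact Or.inr (Or.inl m1)
  have hS00 : (0, 0) ∈ S0 := l0 (show ((0, 0) : ℕ × ℕ) ≤ (0, 1) from ⟨by simp, by simp⟩) m0
  have hS10 : (0, 0) ∈ S1 := l1 (show ((0, 0) : ℕ × ℕ) ≤ (0, 1) from ⟨by simp, by simp⟩) m1
  by_cases h4 : 4 ≤ n
  · right; right
    refine ⟨h4, m0, m1, fun hc => h01 (l0 (show ((1, 0) : ℕ × ℕ) ≤ (n - 3, 0) from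
      ⟨by show 1 ≤ n - 3; omega, le_refl _⟩) hc)⟩
  · left
    refine union_card n S0 S1 h0 h1 hne {(0, 0), (0, 1)} ?_ ?_ ?_
    · intro x hx; simp at hx; rcases hx with rfl | rfl <;> assumption
    · intro x hx; simp at hx; rcases hx with rfl | rfl <;> assumption
    · rw [Finset.card_pair (by simp)]; omega

theorem CA : S_CA := by
  intro n S0 S1 l0 l1 h0 h1 hne
  have hn : 2 ≤ n := by
    by_contra hc
    have hc' : n ≤ 1 := by omega
    have aux : ∀ S : Finset (ℕ × ℕ), IsLowerSet (S : Set (ℕ × ℕ)) → S.card = n →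
        S ⊆ {(0, 0)} := by
      intro S l hS x hx
      have h00 : (0, 0) ∈ S := l (show ((0, 0) : ℕ × ℕ) ≤ x from ⟨Nat.zero_le _, Nat.zero_le _⟩) hx
      have := Finset.card_le_one.mp (show S.card ≤ 1 by omega) x hx (0, 0) h00
      simp [this]
    have s0 := aux S0 l0 h0
    have s1 := aux S1 l1 h1
    apply hne
    rcases Finset.subset_singleton_iff.mp s0 with e0 | e0 <;>
      rcases Finset.subset_singleton_iff.mp s1 with e1 | e1
    · rw [e0, e1]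
    · rw [e0, Finset.card_empty] at h0
      rw [e1, Finset.card_singleton] at h1; omega
    · rw [e1, Finset.card_empty] at h1
      rw [e0, Finset.card_singleton] at h0; omega
    · rw [e0, e1]
  by_cases a0 : (0, 1) ∈ S0
  swap
  · rcases row_case n hn S0 S1 l0 l1 h0 h1 hne a0 with h | h | ⟨q1, q2, q3, q4⟩
    · exact Or.inl h
    · exact Or.inr (Or.inl ⟨hn, a0, h⟩)
    · exact Or.inr (Or.inr (Or.inr (Or.inr ⟨q1, q2, q3, Or.inl q4⟩)))
  by_cases a1 : (0, 1) ∈ S1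
  swap
  · rcases row_case n hn S1 S0 l1 l0 h1 h0 hne.symm a1 with h | h | ⟨q1, q2, q3, q4⟩
    · rw [Finset.union_comm] at h; exact Or.inl h
    · exact Or.inr (Or.inr (Or.inl ⟨hn, a1, h⟩))
    · exact Or.inr (Or.inr (Or.inr (Or.inr ⟨q1, q3, q2, Or.inr q4⟩)))
  by_cases b0 : (1, 0) ∈ S0
  swap
  · rcases col_case n hn S0 S1 l0 l1 h0 h1 hne b0 with h | h | ⟨q1, q2, q3, q4⟩
    · exact Or.inl h
    · exact absurd a1 h
    · exact Or.inr (Or.inr (Or.inr (Or.inl ⟨q1, q2, q3, Or.inl q4⟩)))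
  by_cases b1 : (1, 0) ∈ S1
  swap
  · rcases col_case n hn S1 S0 l1 l0 h1 h0 hne.symm b1 with h | h | ⟨q1, q2, q3, q4⟩
    · rw [Finset.union_comm] at h; exact Or.inl h
    · exact absurd a0 h
    · exact Or.inr (Or.inr (Or.inr (Or.inl ⟨q1, q3, q2, Or.inr q4⟩)))
  have c0 : (0, 0) ∈ S0 := l0 (show ((0, 0) : ℕ × ℕ) ≤ (0, 1) from ⟨by simp, by simp⟩) a0
  have c1 : (0, 0) ∈ S1 := l1 (show ((0, 0) : ℕ × ℕ) ≤ (0, 1) from ⟨by simp, by simp⟩) a1
  by_cases h4 : 4 ≤ n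
  swap
  · left
    refine union_card n S0 S1 h0 h1 hne {(0, 0), (0, 1), (1, 0)} ?_ ?_ ?_
    · intro x hx; simp at hx; rcases hx with rfl | rfl | rfl <;> assumption
    · intro x hx; simp at hx; rcases hx with rfl | rfl | rfl <;> assumption
    · have : ({(0, 0), (0, 1), (1, 0)} : Finset (ℕ × ℕ)).card = 3 := by decide
      omega
  by_cases d0 : (n - 3, 0) ∈ S0
  swap
  · exact Or.inr (Or.inr (Or.inr (Or.inl ⟨h4, a0, a1, Or.inl d0⟩)))
  by_cases d1 : (n - 3, 0) ∈ S1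
  swap
  · exact Or.inr (Or.inr (Or.inr (Or.inl ⟨h4, a0, a1, Or.inr d1⟩)))
  left
  have inj : Function.Injective (fun i : ℕ => ((i, 0) : ℕ × ℕ)) := by
    intro i j h; simpa using h
  refine union_card n S0 S1 h0 h1 hne
    (insert (0, 1) ((Finset.range (n - 2)).image (fun i : ℕ => ((i, 0) : ℕ × ℕ)))) ?_ ?_ ?_
  · intro x hx
    rw [Finset.mem_insert, Finset.mem_image] at hx
    rcases hx with rfl | ⟨i, hi, rfl⟩
    · exact a0
    · rw [Finset.mem_range] at hi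
      exact l0 (show ((i, 0) : ℕ × ℕ) ≤ (n - 3, 0) from ⟨by show i ≤ n - 3; omega, le_refl _⟩) d0
  · intro x hx
    rw [Finset.mem_insert, Finset.mem_image] at hx
    rcases hx with rfl | ⟨i, hi, rfl⟩
    · exact a1
    · rw [Finset.mem_range] at hi
      exact l1 (show ((i, 0) : ℕ × ℕ) ≤ (n - 3, 0) from ⟨by show i ≤ n - 3; omega, le_refl _⟩) d1
  · rw [Finset.card_insert_of_notMem (by simp), Finset.card_image_of_injective _ inj,
      Finset.card_range]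
    omega

end K57
end HR
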