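import Pool.Agent.H59.HR.Stm

set_option linter.all false

namespace HR
namespace K57

theorem MX : S_MX := by
  intro n hn J pq _ hli hfin hrk hx hy
  classical
  haveI : Module.Finite ℂ (P2 ℂ ⧸ J) := hfin
  haveI : Nonempty (Fin n) := ⟨⟨0, hn⟩⟩
  let b : Module.Basis (Fin n) ℂ (P2 ℂ ⧸ J) :=
    basisOfLinearIndependentOfCardEqFinrank hli (by rw [Fintype.card_fin, hrk])
  have hb : ∀ i, b i = Ideal.Quotient.mk J (mon ℂ (pq i)) := fun i => by
    simp [b]
  let L : (P2 ℂ ⧸ J) →ₐ[ℂ] Matrix (Fin n) (Fin n) ℂ := Algebra.leftMulMatrix b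
  obtain ⟨qx, hqx⟩ : ∃ q : P2 ℂ ⧸ J, q = Ideal.Quotient.mk J (MvPolynomial.X 0) := ⟨_, rfl⟩
  obtain ⟨qy, hqy⟩ : ∃ q : P2 ℂ ⧸ J, q = Ideal.Quotient.mk J (MvPolynomial.X 1) := ⟨_, rfl⟩
  have hmon : ∀ m : Fin 2 →₀ ℕ, L (Ideal.Quotient.mk J (MvPolynomial.monomial m 1))
      = L qx ^ (m 0) * L qy ^ (m 1) := by
    intro m
    rw [← map_pow, ← map_pow, ← map_mul]
    congr 1
    have := mon_eq ℂ (m 0, m 1)
    rw [ex_eq] at this
    rw [← this, mon, map_mul, map_pow, map_pow, hqx, hqy]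
  have hmev : ∀ f : P2 ℂ, mev (L qx) (L qy) f = L (Ideal.Quotient.mk J f) := by
    intro f
    induction f using MvPolynomial.induction_on' with
    | monomial m c =>
      rw [mev_monomial, ← hmon]
      have : (MvPolynomial.monomial m c : P2 ℂ) = c • MvPolynomial.monomial m (1 : ℂ) := by
        rw [MvPolynomial.smul_monomial, smul_eq_mul, mul_one]
      rw [this]
      rw [show Ideal.Quotient.mk J (c • MvPolynomial.monomial m (1 : ℂ))
        = c • Ideal.Quotient.mk J (MvPolynomial.monomial m (1 : ℂ)) from rfl]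
      rw [map_smul]
    | add p q hp hq => rw [mev_add, hp, hq, map_add, map_add]
  have hvec : ∀ f : P2 ℂ, (mev (L qx) (L qy) f).mulVec (b.repr 1)
      = b.repr (Ideal.Quotient.mk J f) := by
    intro f
    rw [hmev]
    have := Algebra.leftMulMatrix_mulVec_repr b (Ideal.Quotient.mk J f) 1
    rw [mul_one] at this
    exact this
  refine ⟨L qx, L qy, b.repr 1, ?_, ?_, ?_, ?_, ?_⟩
  · rw [← map_mul, ← map_mul, mul_comm]
  · obtain ⟨N, hN⟩ := hx
    refine ⟨N, ?_⟩
    rw [← map_pow]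
    have : qx ^ N = 0 := by
      rw [hqx, ← map_pow]
      exact Ideal.Quotient.eq_zero_iff_mem.mpr hN
    rw [this, map_zero]
  · obtain ⟨N, hN⟩ := hy
    refine ⟨N, ?_⟩
    rw [← map_pow]
    have : qy ^ N = 0 := by
      rw [hqy, ← map_pow]
      exact Ideal.Quotient.eq_zero_iff_mem.mpr hN
    rw [this, map_zero]
  · have : Wmat (L qx) (L qy) (b.repr 1) pq = 1 := by
      ext i j
      show ((L qx ^ (pq j).1 * L qy ^ (pq j).2).mulVec (b.repr 1)) i = _
      rw [← mev_mon, hvec, ← hb, Module.Basis.repr_self, Matrix.one_apply, Finsupp.single_apply]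
      by_cases h : i = j
      · rw [if_pos h.symm, if_pos h]
      · rw [if_neg (fun h' => h h'.symm), if_neg h]
    rw [this, Matrix.det_one]
    exact one_ne_zero
  · intro f hf
    rw [hvec, Ideal.Quotient.eq_zero_iff_mem.mpr hf, map_zero]
    rfl

end K57
end HR
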